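import Pool.Agent.Run7.h513.BGB.Main

/-!
# Balanced generalized de Bruijn sequences over alphabets with at least three letters

A cyclic sequence of length `n` over the alphabet `A` is a function `a : ZMod n → A`.
-/

namespace Pool.Agent.Results.MP_a9eae2_co.BalancedExistence

/-- The number of positions at which the word `w` of length `l` occurs in the cyclic sequence `a`. -/
noncomputable def occurrences {A : Type*} {n l : ℕ} (a : ZMod n → A) (w : Fin l → A) : ℕ :=
  {i : ZMod n | ∀ j : Fin l, a (i + ((j : ℕ) : ZMod n)) = w j}.ncard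

/-- `a` is a generalized de Bruijn sequence with parameters `(n, l, k)`: every word of length `l`
occurs at no more than `k` positions. -/
def IsGeneralizedDeBruijn {A : Type*} {n : ℕ} (l k : ℕ) (a : ZMod n → A) : Prop :=
  ∀ w : Fin l → A, occurrences a w ≤ k

/-- All letters of the alphabet occur equally often in `a`. -/
def IsBalanced {A : Type*} {n : ℕ} (a : ZMod n → A) : Prop :=
  ∀ x y : A, {i : ZMod n | a i = x}.ncard = {i : ZMod n | a i = y}.ncard

lemma sum_fibres {A B : Type*} [Fintype A] [Fintype B] [DecidableEq B] (f : A → B) :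
    ∑ b, {a : A | f a = b}.ncard = Fintype.card A := by
  classical
  have h : ∀ b, {a : A | f a = b}.ncard = (Finset.univ.filter fun a => f a = b).card := by
    intro b
    rw [← Set.ncard_coe_finset]
    congr 1
    ext a
    simp
  simp only [h]
  rw [← Finset.card_univ, Finset.card_eq_sum_card_fiberwise (f := f) (t := Finset.univ)]
  intro a _
  simp

/-- **Existence of balanced generalized de Bruijn sequences.** Over every alphabet with `m ≥ 3`
letters and for all positive integers `n, l, k`, a balanced generalized de Bruijn sequence with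
parameters `(n, l, k)` exists if and only if `m ∣ n` and `k ≥ n / m ^ l`. -/
theorem result (A : Type*) [Fintype A] (hA : 3 ≤ Fintype.card A) (n l k : ℕ) (hn : 0 < n)
    (hl : 0 < l) (hk : 0 < k) :
    (∃ a : ZMod n → A, IsGeneralizedDeBruijn l k a ∧ IsBalanced a) ↔
      Fintype.card A ∣ n ∧ (n : ℝ) / (Fintype.card A : ℝ) ^ l ≤ k := by
  classical
  have hn' : NeZero n := ⟨hn.ne'⟩
  have hm : 0 < Fintype.card A := by omega
  have hpow : (0 : ℝ) < (Fintype.card A : ℝ) ^ l := by positivity
  constructor
  · rintro ⟨a, ha, hb⟩
    refine ⟨?_, ?_⟩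
    · have hne : Nonempty A := Fintype.card_pos_iff.mp hm
      obtain ⟨x0⟩ := hne
      have h1 := sum_fibres a
      rw [ZMod.card] at h1
      rw [← h1, Finset.sum_congr rfl (fun x _ => hb x x0), Finset.sum_const, Finset.card_univ,
        smul_eq_mul]
      exact dvd_mul_right _ _
    · rw [div_le_iff₀ hpow]
      have h1 := sum_fibres (fun i : ZMod n => fun j : Fin l => a (i + ((j : ℕ) : ZMod n)))
      rw [ZMod.card] at h1
      have h2 : ∀ w : Fin l → A,
          {i : ZMod n | (fun j : Fin l => a (i + ((j : ℕ) : ZMod n))) = w}.ncard ≤ k := by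
        intro w
        have := ha w
        unfold occurrences at this
        simpa only [funext_iff] using this
      have h3 : n ≤ ∑ _w : Fin l → A, k := by
        conv_lhs => rw [← h1]
        exact Finset.sum_le_sum fun w _ => h2 w
      rw [Finset.sum_const, Finset.card_univ, Fintype.card_fun, Fintype.card_fin, smul_eq_mul] at h3
      have h4 : (n : ℝ) ≤ ((Fintype.card A ^ l * k : ℕ) : ℝ) := by exact_mod_cast h3
      push_cast at h4
      rw [mul_comm]
      exact h4
  · rintro ⟨⟨q, hq⟩, hle⟩
    rw [div_le_iff₀ hpow] at hle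
    obtain ⟨t, rfl⟩ : ∃ t, l = t + 1 := ⟨l - 1, by omega⟩
    subst hq
    have hq0 : 1 ≤ q := by
      rcases Nat.eq_zero_or_pos q with h | h
      · subst h; simp at hn
      · exact h
    have h1 : q ≤ k * (Fintype.card A) ^ t := by
      have h2 : Fintype.card A * q ≤ k * (Fintype.card A) ^ (t + 1) := by exact_mod_cast hle
      rw [pow_succ, ← mul_assoc, mul_comm (k * _) (Fintype.card A)] at h2
      exact Nat.le_of_mul_le_mul_left h2 hm
    have hmz : NeZero (Fintype.card A) := ⟨by omega⟩
    obtain ⟨b, hb1, hb2⟩ := Run7.h513.BGB.seq_all (m := Fintype.card A) hA (by omega) hq0 t h1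
    let e : ZMod (Fintype.card A) ≃ A := Fintype.equivOfCardEq (ZMod.card _)
    refine ⟨fun i => e (b i), ?_, ?_⟩
    · intro w
      have := hb1 (fun j => e.symm (w j))
      unfold occurrences
      simpa only [Equiv.eq_symm_apply] using this
    · intro x y
      have h2 : ∀ z : A, {i | e (b i) = z}.ncard = q := by
        intro z
        have := hb2 (e.symm z)
        simpa only [Equiv.eq_symm_apply] using this
      rw [h2 x, h2 y]

end Pool.Agent.Results.MP_a9eae2_co.BalancedExistence
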